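import Pool.Agent.MWGN.StmtsA

/-!
MWGN, row TLR: position of a letter relative to a light letter.
-/

namespace Pool.Agent.MWGN.H23

open Pool.Agent.Helper14_MV Pool.Agent.Helper2_MV
open Pool.Agent.MWK (pre Gw)

theorem fm (f : ℕ → List ℕ) (c v : ℕ) (hc : f c = [v]) :
    ∀ l : List ℕ, (∀ d ∈ l, d = c ∨ f d = []) → l.flatMap f = List.replicate (l.count c) v
  | [], _ => by simp
  | d :: l, h => by
    have ih := fm f c v hc l (fun e he => h e (List.mem_cons_of_mem _ he))
    rw [List.flatMap_cons, ih]
    by_cases hd : d = c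
    · subst hd
      rw [hc, List.count_cons_self, List.replicate_succ]
      rfl
    · rcases h d List.mem_cons_self with h1 | h1
      · exact absurd h1 hd
      · rw [h1, List.count_cons_of_ne hd]
        rfl

theorem dec {w : List ℕ} {c z s : ℕ} (hcs : c ≠ s) (hzs : z ≠ s) (hcz : c ≠ z)
    (hs : w.count s = 1) (hz : nn w z s = 1) (hc : nn w c s = w.count c) :
    ∃ D B : List ℕ, w = pre w z ++ z :: (D ++ s :: B) ∧ s ∉ pre w z ∧ s ∉ D ∧ s ∉ B ∧
      z ∉ pre w z ∧ z ∉ D ∧ c ∉ B ∧ D.count c = w.count c - nn w c z ∧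
      B.count z = w.count z - 1 := by
  have hsw : s ∈ w := List.count_pos_iff.1 (by omega)
  obtain ⟨B, hB⟩ := Pool.Agent.MWK.mem_split hsw
  unfold nn at hz hc
  have hzm : z ∈ pre w s := List.count_pos_iff.1 (by omega)
  obtain ⟨D, hD⟩ := Pool.Agent.MWK.pre_mono hzm
  have hw : w = pre w z ++ z :: (D ++ s :: B) := by
    have h1 : w = (pre w z ++ z :: D) ++ s :: B := by rw [← hD]; exact hB
    rw [List.append_assoc, List.cons_append] at h1
    exact h1
  have hzp : (pre w z).count z = 0 := List.count_eq_zero.2 (Pool.Agent.MWK.not_mem_pre w z)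
  have e1 := congrArg (List.count s) hw
  have e2 := congrArg (List.count z) hw
  have e3 := congrArg (List.count c) hw
  have e4 := congrArg (List.count z) hD
  have e5 := congrArg (List.count c) hD
  simp only [List.count_append, List.count_cons_self, List.count_cons_of_ne hzs,
    List.count_cons_of_ne hzs.symm, List.count_cons_of_ne hcs.symm,
    List.count_cons_of_ne hcz.symm] at e1 e2 e3 e4 e5
  refine ⟨D, B, hw, List.count_eq_zero.1 (by omega), List.count_eq_zero.1 (by omega),
    List.count_eq_zero.1 (by omega), Pool.Agent.MWK.not_mem_pre w z,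
    List.count_eq_zero.1 (by omega), List.count_eq_zero.1 (by omega), ?_, by omega⟩
  unfold nn
  omega

theorem st3 (f : ℕ → List ℕ) {w : List ℕ} {c z s : ℕ} (hcs : c ≠ s) (hzs : z ≠ s) (hcz : c ≠ z)
    (fc : f c = [0]) (fz : f z = [1]) (fs : f s = [2])
    (fo : ∀ d, d ≠ c → d ≠ z → d ≠ s → f d = [])
    (hs : w.count s = 1) (hz : nn w z s = 1) (hc : nn w c s = w.count c) :
    w.flatMap f = List.replicate (nn w c z) 0 ++ 1 :: (List.replicate (w.count c - nn w c z) 0 ++
      2 :: List.replicate (w.count z - 1) 1) := by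
  obtain ⟨D, B, hw, h1, h2, h3, h4, h5, h6, h7, h8⟩ := dec hcs hzs hcz hs hz hc
  have k1 : (pre w z).flatMap f = List.replicate (nn w c z) 0 := by
    apply fm f c 0 fc
    intro d hd
    by_cases hdc : d = c
    · exact Or.inl hdc
    · exact Or.inr (fo d hdc (fun e => h4 (e ▸ hd)) (fun e => h1 (e ▸ hd)))
  have k2 : D.flatMap f = List.replicate (w.count c - nn w c z) 0 := by
    rw [← h7]
    apply fm f c 0 fc
    intro d hd
    by_cases hdc : d = c
    · exact Or.inl hdc
    · exact Or.inr (fo d hdc (fun e => h5 (e ▸ hd)) (fun e => h2 (e ▸ hd)))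
  have k3 : B.flatMap f = List.replicate (w.count z - 1) 1 := by
    rw [← h8]
    apply fm f z 1 fz
    intro d hd
    by_cases hdz : d = z
    · exact Or.inl hdz
    · exact Or.inr (fo d (fun e => h6 (e ▸ hd)) hdz (fun e => h3 (e ▸ hd)))
  have k0 : w.flatMap f = (pre w z ++ z :: (D ++ s :: B)).flatMap f := by rw [← hw]
  rw [k0, List.flatMap_append, List.flatMap_cons, List.flatMap_append, List.flatMap_cons, k1, k2,
    k3, fz, fs]
  rfl

theorem st4 (f : ℕ → List ℕ) {w : List ℕ} {c z s t : ℕ} (hcs : c ≠ s) (hzs : z ≠ s)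
    (hcz : c ≠ z) (htc : t ≠ c) (htz : t ≠ z) (hts : t ≠ s)
    (fc : f c = [0]) (fz : f z = [1]) (fs : f s = [2]) (ft : f t = [3])
    (fo : ∀ d, d ≠ c → d ≠ z → d ≠ s → d ≠ t → f d = [])
    (hs : w.count s = 1) (hz : nn w z s = 1) (hc : nn w c s = w.count c)
    (ht : w.count t = 1) (hct : nn w c t = 1) (hzt : nn w z t = 0) (hzw : z ∈ w) :
    1 ≤ nn w c z ∧
    w.flatMap f = 0 :: 3 :: (List.replicate (nn w c z - 1) 0 ++
      1 :: (List.replicate (w.count c - nn w c z) 0 ++ 2 :: List.replicate (w.count z - 1) 1)) := by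
  obtain ⟨D, B, hw, h1, h2, h3, h4, h5, h6, h7, h8⟩ := dec hcs hzs hcz hs hz hc
  have htz' : t ∈ pre w z := by
    rcases Pool.Agent.MWK.pre_total hzw htz.symm with h | h
    · exfalso
      unfold nn at hzt
      exact absurd h (List.count_eq_zero.1 hzt)
    · exact h
  obtain ⟨E, hE⟩ := Pool.Agent.MWK.pre_mono htz'
  have htp : (pre w t).count t = 0 := List.count_eq_zero.2 (Pool.Agent.MWK.not_mem_pre w t)
  unfold nn at hct
  have e1 := congrArg (List.count t) hw
  have e2 := congrArg (List.count t) hE
  have e3 := congrArg (List.count c) hE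
  simp only [List.count_append, List.count_cons_self, List.count_cons_of_ne htz.symm,
    List.count_cons_of_ne hts.symm, List.count_cons_of_ne htc] at e1 e2 e3
  have hE0 : t ∉ E := List.count_eq_zero.1 (by omega)
  have hD0 : t ∉ D := List.count_eq_zero.1 (by omega)
  have hB0 : t ∉ B := List.count_eq_zero.1 (by omega)
  have hnn : nn w c z = 1 + E.count c := by
    unfold nn
    omega
  refine ⟨by omega, ?_⟩
  have k0 : w.flatMap f = ((pre w t ++ t :: E) ++ z :: (D ++ s :: B)).flatMap f := by
    rw [← hE, ← hw]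
  have k1 : (pre w t).flatMap f = [0] := by
    have := fm f c 0 fc (pre w t) (fun d hd => by
      by_cases hdc : d = c
      · exact Or.inl hdc
      · have hd' : d ∈ pre w z := by
          rw [hE]
          exact List.mem_append_left _ hd
        exact Or.inr (fo d hdc (fun e => h4 (e ▸ hd')) (fun e => h1 (e ▸ hd'))
          (fun e => Pool.Agent.MWK.not_mem_pre w t (e ▸ hd))))
    rw [this, hct]
    rfl
  have k1' : E.flatMap f = List.replicate (nn w c z - 1) 0 := by
    have hn : nn w c z - 1 = E.count c := by omega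
    rw [hn]
    apply fm f c 0 fc
    intro d hd
    by_cases hdc : d = c
    · exact Or.inl hdc
    · have hd' : d ∈ pre w z := by
        rw [hE]
        exact List.mem_append_right _ (List.mem_cons_of_mem _ hd)
      exact Or.inr (fo d hdc (fun e => h4 (e ▸ hd')) (fun e => h1 (e ▸ hd'))
        (fun e => hE0 (e ▸ hd)))
  have k2 : D.flatMap f = List.replicate (w.count c - nn w c z) 0 := by
    rw [← h7]
    apply fm f c 0 fc
    intro d hd
    by_cases hdc : d = c
    · exact Or.inl hdc
    · exact Or.inr (fo d hdc (fun e => h5 (e ▸ hd)) (fun e => h2 (e ▸ hd))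
        (fun e => hD0 (e ▸ hd)))
  have k3 : B.flatMap f = List.replicate (w.count z - 1) 1 := by
    rw [← h8]
    apply fm f z 1 fz
    intro d hd
    by_cases hdz : d = z
    · exact Or.inl hdz
    · exact Or.inr (fo d (fun e => h6 (e ▸ hd)) hdz (fun e => h3 (e ▸ hd))
        (fun e => hB0 (e ▸ hd)))
  rw [k0, List.flatMap_append, List.flatMap_append, List.flatMap_cons, List.flatMap_cons,
    List.flatMap_append, List.flatMap_cons, k1, k1', k2, k3, fz, fs, ft]
  simp

/-- **TLR**. -/
theorem tlr (h1 : OlrStmt) (h2 : TlwStmt) (h3 : Pool.Agent.MWF.CttStmt)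
    (h4 : Pool.Agent.MWF.SimStmt) : TlrStmt := by
  intro β hG hE hP w w' hR c z s hs hc2 hz2 hzs1 hcs1
  have hcs : c ≠ s := by rintro rfl; omega
  have hzs : z ≠ s := by rintro rfl; omega
  have hcz : c ≠ z := by rintro rfl; omega
  have hs' : w'.count s = 1 := h4 β hG.ap w w' hR s hs
  have cnt : ∀ d, 2 ≤ w.count d → 2 ≤ w'.count d := by
    intro d hd
    have hm : d ∈ w' := (h3 β hG.ap w w' hR d).1 (List.count_pos_iff.1 (by omega))
    have hp : 0 < w'.count d := List.count_pos_iff.2 hm
    by_contra hcon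
    have h5 := h4 β hG.ap w' w hR.symm d (by omega)
    omega
  have hc2' := cnt c hc2
  have hz2' := cnt z hz2
  obtain ⟨-, -, oc⟩ := h1 β hG hE w w' hR c s hs hcs
  obtain ⟨-, oz, -⟩ := h1 β hG hE w w' hR z s hs hzs
  have hcs1' := oc.1 hcs1
  have hzs1' := oz.1 hzs1
  have le' : nn w' c z ≤ w'.count c := Pool.Agent.MWK.count_pre_le w' c z
  -- the map
  have key3 : RR β (List.replicate (nn w c z) 0 ++ 1 :: (List.replicate (w.count c - nn w c z) 0 ++
      2 :: List.replicate (w.count z - 1) 1)) (List.replicate (nn w' c z) 0 ++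
      1 :: (List.replicate (w'.count c - nn w' c z) 0 ++
      2 :: List.replicate (w'.count z - 1) 1)) := by
    have hsub := hR.sub (fun d => if d = c then [0] else if d = z then [1] else
      if d = s then [2] else [])
    rw [st3 _ hcs hzs hcz (by simp) (by simp [hcz.symm]) (by simp [hcs.symm, hzs.symm])
      (by intro d a1 a2 a3; simp [a1, a2, a3]) hs hzs1 hcs1,
      st3 _ hcs hzs hcz (by simp) (by simp [hcz.symm]) (by simp [hcs.symm, hzs.symm])
      (by intro d a1 a2 a3; simp [a1, a2, a3]) hs' hzs1' hcs1'] at hsub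
    exact hsub
  refine ⟨?_, ?_, ?_⟩
  · intro hA hall
    by_contra hcon
    apply hA
    refine (h2 β hG (nn w c z) 0 (w.count z - 1) (nn w' c z) (w'.count c - nn w' c z)
      (w'.count z - 1) (by omega) (by omega)).1 (by omega) (by omega) ?_
    have e : w.count c - nn w c z = 0 := by omega
    rw [e] at key3
    exact key3
  · intro h0
    by_contra hcon
    apply hP
    refine (h2 β hG 0 (w.count c) (w.count z - 1) (nn w' c z) (w'.count c - nn w' c z)
      (w'.count z - 1) (by omega) (by omega)).2.1 (by omega) (by omega) (by omega) ?_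
    rw [h0] at key3
    exact key3
  · intro t ht hct hzt hcz1
    have htc : t ≠ c := by rintro rfl; omega
    have htz : t ≠ z := by rintro rfl; omega
    have hts : t ≠ s := by rintro rfl; omega
    have ht' : w'.count t = 1 := h4 β hG.ap w w' hR t ht
    obtain ⟨-, o2, -⟩ := h1 β hG hE w w' hR c t ht htc.symm
    obtain ⟨o3, -, -⟩ := h1 β hG hE w w' hR z t ht htz.symm
    have hct' := o2.1 hct
    have hzt' := o3.1 hzt
    have hsub := hR.sub (fun d => if d = c then [0] else if d = z then [1] else
      if d = s then [2] else if d = t then [3] else [])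
    obtain ⟨n1, m1⟩ := st4 (fun d => if d = c then [0] else if d = z then [1] else
      if d = s then [2] else if d = t then [3] else []) (w := w) hcs hzs hcz htc htz hts
      (by simp) (by simp [hcz.symm]) (by simp [hcs.symm, hzs.symm]) (by simp [htc, htz, hts])
      (by intro d a1 a2 a3 a4; simp [a1, a2, a3, a4]) hs hzs1 hcs1 ht hct hzt
      (List.count_pos_iff.1 (by omega))
    obtain ⟨n2, m2⟩ := st4 (fun d => if d = c then [0] else if d = z then [1] else
      if d = s then [2] else if d = t then [3] else []) (w := w') hcs hzs hcz htc htz hts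
      (by simp) (by simp [hcz.symm]) (by simp [hcs.symm, hzs.symm]) (by simp [htc, htz, hts])
      (by intro d a1 a2 a3 a4; simp [a1, a2, a3, a4]) hs' hzs1' hcs1' ht' hct' hzt'
      (List.count_pos_iff.1 (by omega))
    rw [m1, m2, hcz1] at hsub
    by_contra hcon
    apply hP
    exact (h2 β hG 0 (w.count c - 1) (w.count z - 1) (nn w' c z - 1) (w'.count c - nn w' c z)
      (w'.count z - 1) (by omega) (by omega)).2.2 (by omega) (by omega) hsub

end Pool.Agent.MWGN.H23
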